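import Pool.Agent.R964.Doeblin

/-!
# MP_313e16: the mean profit of the cooperative Parrondo game is not monotone
-/

set_option autoImplicit false

namespace Pool.Agent.Results.MP_313e16_pr.NotMonotone

open Finset Matrix Pool.Agent.R964.Doeblin

section defs

variable {K : Type*} [Field K]

/-- The number `m_i(x) = 2 x_{i-1} + x_{i+1} ∈ {0, 1, 2, 3}` (cyclic indices in `Fin N`). -/
def nbr {N : ℕ} [NeZero N] (x : Fin N → Bool) (i : Fin N) : Fin 4 :=
  match x (i - 1), x (i + 1) with
  | false, false => 0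
  | false, true => 1
  | true, false => 2
  | true, true => 3

/-- The transition matrix: a uniformly random player `i` tosses a `p_{m_i(x)}`-coin, and `x_i`
becomes `1` (`true`) on heads and `0` (`false`) on tails. -/
def trans (N : ℕ) [NeZero N] (p : Fin 4 → K) : Matrix (Fin N → Bool) (Fin N → Bool) K :=
  Matrix.of fun x y => (∑ i : Fin N,
    ((if y = Function.update x i true then p (nbr x i) else 0) +
      (if y = Function.update x i false then 1 - p (nbr x i) else 0))) / (N : K)

/-- The mean profit `(1/N) ∑_x π(x) ∑_i (p_{m_i(x)} - q_{m_i(x)})`. -/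
def profit (N : ℕ) [NeZero N] (p : Fin 4 → K) (π : (Fin N → Bool) → K) : K :=
  (∑ x, π x * ∑ i : Fin N, (p (nbr x i) - (1 - p (nbr x i)))) / (N : K)

end defs

/-- `π` is a stationary distribution of the chain with parameters `p`. -/
def IsStationary (N : ℕ) [NeZero N] (p : Fin 4 → ℝ) (π : (Fin N → Bool) → ℝ) : Prop :=
  IsProb π ∧ π ᵥ* trans N p = π

/-- The monotonicity asked for: for all `N ≥ 3`, all `j` and all ergodic parameter vectors
`p, p' ∈ [0, 1]^4` which agree except that `p_j ≤ p'_j`, the mean profits satisfy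
`μ^N(p) ≤ μ^N(p')`. -/
def Monotonicity : Prop :=
  ∀ (N : ℕ) [NeZero N], 3 ≤ N → ∀ (j : Fin 4) (p p' : Fin 4 → ℝ),
    (∀ i, 0 ≤ p i ∧ p i ≤ 1) → (∀ i, 0 ≤ p' i ∧ p' i ≤ 1) →
    IsErgodic (trans N p) → IsErgodic (trans N p') →
    (∀ i, i ≠ j → p i = p' i) → p j ≤ p' j →
    ∀ π π' : (Fin N → Bool) → ℝ, IsStationary N p π → IsStationary N p' π' →
      profit N p π ≤ profit N p' π'

/-! ### rational computations, `N = 4` -/

/-- first parameter vector -/
def pQ : Fin 4 → ℚ := ![19/20, 1/20, 1/20, 1/20]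

/-- second parameter vector -/
def pQ' : Fin 4 → ℚ := ![19/20, 1/20, 1/20, 1/5]

/-- a function that depends on the orbit of the configuration -/
def orb (a0 a1 a2 b2 a3 a4 : ℚ) (x : Fin 4 → Bool) : ℚ :=
  match x 0, x 1, x 2, x 3 with
  | false, false, false, false => a0
  | true, false, false, false => a1
  | false, true, false, false => a1
  | false, false, true, false => a1
  | false, false, false, true => a1
  | true, true, false, false => a2
  | false, true, true, false => a2
  | false, false, true, true => a2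
  | true, false, false, true => a2
  | true, false, true, false => b2
  | false, true, false, true => b2
  | false, true, true, true => a3
  | true, false, true, true => a3
  | true, true, false, true => a3
  | true, true, true, false => a3
  | true, true, true, true => a4

/-- stationary distribution for `pQ` -/
def piQ : (Fin 4 → Bool) → ℚ :=
  orb (76/41740) (1444/41740) (361/41740) (16606/41740) (304/41740) (16/41740)

/-- stationary distribution for `pQ'` -/
def piQ' : (Fin 4 → Bool) → ℚ :=
  orb (524/174013) (9956/174013) (4180/174013) (50236/174013) (3876/174013) (969/174013)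

lemma piQ_nonneg : ∀ x, 0 ≤ piQ x := by decide +kernel

lemma piQ'_nonneg : ∀ x, 0 ≤ piQ' x := by decide +kernel

lemma piQ_sum : ∑ x, piQ x = 1 := by decide +kernel

lemma piQ'_sum : ∑ x, piQ' x = 1 := by decide +kernel

lemma piQ_stat : ∀ y, (piQ ᵥ* trans 4 pQ) y = piQ y := by decide +kernel

lemma piQ'_stat : ∀ y, (piQ' ᵥ* trans 4 pQ') y = piQ' y := by decide +kernel

lemma profit_val : profit 4 pQ piQ = -117/2087 := by decide +kernel

lemma profit_val' : profit 4 pQ' piQ' = -11715/174013 := by decide +kernel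

/-! ### real versions -/

lemma trans_cast (p : Fin 4 → ℚ) (x y : Fin 4 → Bool) :
    trans 4 (fun i => ((p i : ℚ) : ℝ)) x y = ((trans 4 p x y : ℚ) : ℝ) := by
  simp only [trans, Matrix.of_apply]
  push_cast [apply_ite (fun q : ℚ => (q : ℝ))]
  rfl

lemma stat_cast {p : Fin 4 → ℚ} {π : (Fin 4 → Bool) → ℚ}
    (h : ∀ y, (π ᵥ* trans 4 p) y = π y) :
    (fun x => ((π x : ℚ) : ℝ)) ᵥ* trans 4 (fun i => ((p i : ℚ) : ℝ)) =
      fun x => ((π x : ℚ) : ℝ) := by
  funext y
  have h1 := h y
  simp only [vecMul, dotProduct] at h1 ⊢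
  simp only [trans_cast]
  rw [← h1]
  push_cast
  rfl

lemma profit_cast (p : Fin 4 → ℚ) (π : (Fin 4 → Bool) → ℚ) :
    profit 4 (fun i => ((p i : ℚ) : ℝ)) (fun x => ((π x : ℚ) : ℝ)) =
      ((profit 4 p π : ℚ) : ℝ) := by
  unfold profit
  push_cast
  rfl

lemma trans_stochastic (N : ℕ) [NeZero N] {p : Fin 4 → ℝ} (hp : ∀ i, 0 ≤ p i ∧ p i ≤ 1) :
    IsStochastic (trans N p) where
  nonneg x y := by
    simp only [trans, Matrix.of_apply]
    apply div_nonneg _ (Nat.cast_nonneg N)
    refine Finset.sum_nonneg fun i _ => ?_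
    have h := hp (nbr x i)
    have h1 : (0 : ℝ) ≤ if y = Function.update x i true then p (nbr x i) else 0 := by
      split_ifs
      · exact h.1
      · exact le_rfl
    have h2 : (0 : ℝ) ≤ if y = Function.update x i false then 1 - p (nbr x i) else 0 := by
      split_ifs
      · linarith [h.2]
      · exact le_rfl
    linarith
  row_sum x := by
    have hN : (N : ℝ) ≠ 0 := Nat.cast_ne_zero.2 (NeZero.ne N)
    simp only [trans, Matrix.of_apply]
    rw [← Finset.sum_div, Finset.sum_comm]
    simp only [Finset.sum_add_distrib, Finset.sum_ite_eq', Finset.mem_univ, if_true]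
    rw [← Finset.sum_add_distrib]
    simp [hN]

/-- one heads toss has positive probability -/
lemma trans_pos (N : ℕ) [NeZero N] {p : Fin 4 → ℝ} (hp : ∀ i, 0 < p i ∧ p i < 1)
    (x : Fin N → Bool) (i : Fin N) : 0 < trans N p x (Function.update x i true) := by
  have hN : (0 : ℝ) < N := Nat.cast_pos.2 (NeZero.pos N)
  simp only [trans, Matrix.of_apply]
  apply div_pos _ hN
  apply Finset.sum_pos'
  · intro j _
    have h := hp (nbr x j)
    have h1 : (0 : ℝ) ≤ if Function.update x i true = Function.update x j true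
        then p (nbr x j) else 0 := by
      split_ifs
      · exact h.1.le
      · exact le_rfl
    have h2 : (0 : ℝ) ≤ if Function.update x i true = Function.update x j false
        then 1 - p (nbr x j) else 0 := by
      split_ifs
      · linarith [h.2]
      · exact le_rfl
    linarith
  · refine ⟨i, Finset.mem_univ i, ?_⟩
    have h := hp (nbr x i)
    rw [if_pos rfl]
    have h2 : (0 : ℝ) ≤ if Function.update x i true = Function.update x i false
        then 1 - p (nbr x i) else 0 := by
      split_ifs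
      · linarith [h.2]
      · exact le_rfl
    linarith

lemma ergodic_four {p : Fin 4 → ℝ} (hp : ∀ i, 0 < p i ∧ p i < 1) {π : (Fin 4 → Bool) → ℝ}
    (hπ : IsProb π) (hst : π ᵥ* trans 4 p = π) : IsErgodic (trans 4 p) := by
  have hS := trans_stochastic 4 (p := p) fun i => ⟨(hp i).1.le, (hp i).2.le⟩
  apply isErgodic_of_doeblin hS hπ hst 4 (fun _ => true)
  intro x
  have step : ∀ (x : Fin 4 → Bool) (i : Fin 4), 0 < (trans 4 p ^ 1) x (Function.update x i true) :=
    fun x i => by rw [pow_one]; exact trans_pos 4 hp x i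
  have h0 := step x 0
  have h1 := pow_pos_trans hS h0 (step _ 1)
  have h2 := pow_pos_trans hS h1 (step _ 2)
  have h3 := pow_pos_trans hS h2 (step _ 3)
  have e : Function.update (Function.update (Function.update (Function.update x 0 true) 1 true) 2
      true) 3 true = fun _ => true := by
    funext i
    fin_cases i <;> simp [Function.update]
  rw [e] at h3
  exact h3

/-- **The mean profit is not monotone.** For `N = 4`, `p = (19/20, 1/20, 1/20, 1/20)` and
`p' = (19/20, 1/20, 1/20, 1/5)`, both chains are ergodic, and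
`μ^4(p) = -117/2087 > μ^4(p') = -11715/174013`. Hence the answer to Q1 is negative. -/
theorem result :
    (∃ p p' : Fin 4 → ℝ, ∃ π π' : (Fin 4 → Bool) → ℝ,
      p = ![19/20, 1/20, 1/20, 1/20] ∧ p' = ![19/20, 1/20, 1/20, 1/5] ∧
      IsErgodic (trans 4 p) ∧ IsErgodic (trans 4 p') ∧
      IsStationary 4 p π ∧ IsStationary 4 p' π' ∧
      profit 4 p π = -117/2087 ∧ profit 4 p' π' = -11715/174013) ∧
    ¬ Monotonicity := by
  have hcast : (fun i => ((pQ i : ℚ) : ℝ)) = ![19/20, 1/20, 1/20, 1/20] := by
    funext i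
    fin_cases i <;> simp [pQ]
  have hcast' : (fun i => ((pQ' i : ℚ) : ℝ)) = ![19/20, 1/20, 1/20, 1/5] := by
    funext i
    fin_cases i <;> simp [pQ']
  have hP : IsProb (fun x => ((piQ x : ℚ) : ℝ)) :=
    ⟨fun x => by exact_mod_cast piQ_nonneg x, by exact_mod_cast piQ_sum⟩
  have hP' : IsProb (fun x => ((piQ' x : ℚ) : ℝ)) :=
    ⟨fun x => by exact_mod_cast piQ'_nonneg x, by exact_mod_cast piQ'_sum⟩
  have hS := stat_cast piQ_stat
  have hS' := stat_cast piQ'_stat
  have hV := profit_cast pQ piQ
  have hV' := profit_cast pQ' piQ'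
  rw [profit_val] at hV
  rw [profit_val'] at hV'
  rw [hcast] at hS hV
  rw [hcast'] at hS' hV'
  have hb : ∀ i, 0 < (![19/20, 1/20, 1/20, 1/20] : Fin 4 → ℝ) i ∧
      (![19/20, 1/20, 1/20, 1/20] : Fin 4 → ℝ) i < 1 := by
    intro i
    fin_cases i <;> norm_num
  have hb' : ∀ i, 0 < (![19/20, 1/20, 1/20, 1/5] : Fin 4 → ℝ) i ∧
      (![19/20, 1/20, 1/20, 1/5] : Fin 4 → ℝ) i < 1 := by
    intro i
    fin_cases i <;> norm_num
  have hE := ergodic_four hb hP hS
  have hE' := ergodic_four hb' hP' hS'
  refine ⟨⟨_, _, _, _, rfl, rfl, hE, hE', ⟨hP, hS⟩, ⟨hP', hS'⟩, ?_, ?_⟩, fun h => ?_⟩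
  · rw [hV]; norm_num
  · rw [hV']; norm_num
  · have := h 4 (by norm_num) 3 _ _ (fun i => ⟨(hb i).1.le, (hb i).2.le⟩)
      (fun i => ⟨(hb' i).1.le, (hb' i).2.le⟩) hE hE' (by
        intro i hi
        fin_cases i
        · simp
        · simp
        · simp
        · exact absurd rfl hi) (by change (1/20 : ℝ) ≤ 1/5; norm_num) _ _ ⟨hP, hS⟩ ⟨hP', hS'⟩
    rw [hV, hV'] at this
    norm_num at this

end Pool.Agent.Results.MP_313e16_pr.NotMonotone
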